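import Mathlib

/-!
# Project ESB, job EXT: adjoining square roots (helper121)
-/

set_option autoImplicit false

namespace Pool.Agent.Q121.ESB

open Finset

section gen

variable {F : Type} [Field F] [CharZero F]

/-- the elements `x + y r` form a field -/
noncomputable def ext1 (L : IntermediateField F (AlgebraicClosure F)) (r : AlgebraicClosure F) (hr : r ^ 2 ∈ L) :
    IntermediateField F (AlgebraicClosure F) where
  carrier := {s | ∃ x ∈ L, ∃ y ∈ L, s = x + y * r}
  mul_mem' := by
    rintro _ _ ⟨x, hx, y, hy, rfl⟩ ⟨x', hx', y', hy', rfl⟩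
    refine ⟨x * x' + y * y' * r ^ 2, L.add_mem (L.mul_mem hx hx') (L.mul_mem (L.mul_mem hy hy') hr),
      x * y' + y * x', L.add_mem (L.mul_mem hx hy') (L.mul_mem hy hx'), ?_⟩
    ring
  one_mem' := ⟨1, L.one_mem, 0, L.zero_mem, by ring⟩
  add_mem' := by
    rintro _ _ ⟨x, hx, y, hy, rfl⟩ ⟨x', hx', y', hy', rfl⟩
    exact ⟨x + x', L.add_mem hx hx', y + y', L.add_mem hy hy', by ring⟩
  zero_mem' := ⟨0, L.zero_mem, 0, L.zero_mem, by ring⟩
  algebraMap_mem' := fun c => ⟨algebraMap _ _ c, L.algebraMap_mem c, 0, L.zero_mem, by ring⟩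
  inv_mem' := by
    rintro _ ⟨x, hx, y, hy, rfl⟩
    by_cases h0 : x + y * r = 0
    · rw [h0, inv_zero]
      exact ⟨0, L.zero_mem, 0, L.zero_mem, by ring⟩
    · by_cases hN : x - y * r = 0
      · have h1 : x + y * r = 2 * x := by
          have : x = y * r := sub_eq_zero.1 hN
          rw [← this]
          ring
        rw [h1]
        have h2 : (2 : AlgebraicClosure F) ∈ L := by
          have := L.natCast_mem 2
          exact_mod_cast this
        exact ⟨_, L.inv_mem (L.mul_mem h2 hx), 0, L.zero_mem, by ring⟩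
      · have hNm : x ^ 2 - y ^ 2 * r ^ 2 ∈ L :=
          L.sub_mem (pow_mem hx 2) (L.mul_mem (pow_mem hy 2) hr)
        have hN0 : x ^ 2 - y ^ 2 * r ^ 2 ≠ 0 := by
          have : x ^ 2 - y ^ 2 * r ^ 2 = (x + y * r) * (x - y * r) := by ring
          rw [this]
          exact mul_ne_zero h0 hN
        refine ⟨x * (x ^ 2 - y ^ 2 * r ^ 2)⁻¹, L.mul_mem hx (L.inv_mem hNm),
          -y * (x ^ 2 - y ^ 2 * r ^ 2)⁻¹, L.mul_mem (L.neg_mem hy) (L.inv_mem hNm), ?_⟩
        rw [inv_eq_iff_eq_inv, eq_comm, inv_eq_iff_eq_inv, eq_comm]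
        field_simp
        ring

variable {m : ℕ} (r : Fin m → AlgebraicClosure F)

/-- the field generated by some of the `r j` -/
noncomputable def KT (T : Finset (Fin m)) : IntermediateField F (AlgebraicClosure F) :=
  IntermediateField.adjoin F (r '' (T : Set (Fin m)))

omit [CharZero F] in
theorem mem_KT {T : Finset (Fin m)} {j : Fin m} (hj : j ∈ T) : r j ∈ KT (F := F) r T :=
  IntermediateField.subset_adjoin F _ ⟨j, hj, rfl⟩

omit [CharZero F] in
theorem KT_mono {T T' : Finset (Fin m)} (h : T ⊆ T') : KT (F := F) r T ≤ KT r T' :=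
  IntermediateField.adjoin.mono F _ _ (Set.image_mono (by exact_mod_cast h))

variable {b : Fin m → F} (hr : ∀ j, r j ^ 2 = algebraMap F (AlgebraicClosure F) (b j))

include hr in
theorem mem_insert_iff (T : Finset (Fin m)) (a : Fin m) (s : AlgebraicClosure F) :
    s ∈ KT (F := F) r (insert a T) ↔ ∃ x ∈ KT (F := F) r T, ∃ y ∈ KT (F := F) r T, s = x + y * r a := by
  have hra : r a ^ 2 ∈ KT (F := F) r T := by
    rw [hr a]
    exact IntermediateField.algebraMap_mem _ _
  constructor
  · intro hs
    have h1 : KT (F := F) r (insert a T) ≤ ext1 (KT (F := F) r T) (r a) hra := by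
      refine IntermediateField.adjoin_le_iff.2 ?_
      rintro _ ⟨j, hj, rfl⟩
      have hj' : j ∈ insert a T := hj
      rcases Finset.mem_insert.1 hj' with rfl | h
      · exact ⟨0, IntermediateField.zero_mem _, 1, IntermediateField.one_mem _, by ring⟩
      · exact ⟨r j, mem_KT r h, 0, IntermediateField.zero_mem _, by ring⟩
    exact h1 hs
  · rintro ⟨x, hx, y, hy, rfl⟩
    have h2 := KT_mono (F := F) r (Finset.subset_insert a T)
    exact IntermediateField.add_mem _ (h2 hx) (IntermediateField.mul_mem _ (h2 hy)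
      (mem_KT r (Finset.mem_insert_self a T)))

include hr in
theorem main (hb0 : ∀ j, b j ≠ 0) (hb : ∀ S : Finset (Fin m), S.Nonempty → ¬ IsSquare (∏ j ∈ S, b j))
    (T : Finset (Fin m)) :
    Module.finrank F (KT (F := F) r T) = 2 ^ T.card ∧
    ∀ s ∈ KT (F := F) r T, ∀ c : F, s ^ 2 = algebraMap F (AlgebraicClosure F) c →
      ∃ S ⊆ T, ∃ t : F, c = (∏ j ∈ S, b j) * t ^ 2 := by
  induction T using Finset.induction_on with
  | empty =>
    have h0 : KT (F := F) r ∅ = ⊥ := by
      unfold KT
      rw [Finset.coe_empty, Set.image_empty, IntermediateField.adjoin_empty]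
    refine ⟨?_, ?_⟩
    · rw [h0, IntermediateField.finrank_bot, Finset.card_empty, pow_zero]
    · intro s hs c hc
      rw [h0, IntermediateField.mem_bot] at hs
      obtain ⟨t, rfl⟩ := hs
      refine ⟨∅, subset_rfl, t, ?_⟩
      rw [Finset.prod_empty, one_mul]
      exact (algebraMap F (AlgebraicClosure F)).injective (by rw [← hc, map_pow])
  | insert a T haT ih =>
    obtain ⟨ih1, ih2⟩ := ih
    have hra : r a ∉ KT (F := F) r T := by
      intro h
      obtain ⟨S, hS, t, ht⟩ := ih2 (r a) h (b a) (hr a)
      refine hb (insert a S) (Finset.insert_nonempty a S) ⟨(∏ j ∈ S, b j) * t, ?_⟩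
      rw [Finset.prod_insert (fun h => haT (hS h)), ht]
      ring
    constructor
    · rw [Finset.card_insert_of_notMem haT, pow_succ, ← ih1]
      have hle : KT (F := F) r T ≤ KT r (insert a T) := KT_mono r (Finset.subset_insert a T)
      let φ : (KT (F := F) r T × KT (F := F) r T) →ₗ[F] KT (F := F) r (insert a T) :=
        { toFun := fun z => ⟨(z.1 : AlgebraicClosure F) + z.2 * r a,
            (mem_insert_iff r hr T a _).2 ⟨_, z.1.2, _, z.2.2, rfl⟩⟩
          map_add' := by
            rintro ⟨x, y⟩ ⟨x', y'⟩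
            apply Subtype.ext
            show ((x + x' : KT (F := F) r T) : AlgebraicClosure F) + ((y + y' : KT (F := F) r T) : _) * r a =
              ((x : AlgebraicClosure F) + y * r a) + ((x' : AlgebraicClosure F) + y' * r a)
            push_cast
            ring
          map_smul' := by
            rintro c ⟨x, y⟩
            apply Subtype.ext
            show ((c • x : KT (F := F) r T) : AlgebraicClosure F) + ((c • y : KT (F := F) r T) : _) * r a =
              c • ((x : AlgebraicClosure F) + y * r a)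
            rw [IntermediateField.coe_smul, IntermediateField.coe_smul, smul_add, smul_mul_assoc] }
      have hinj : Function.Injective φ := by
        rw [injective_iff_map_eq_zero]
        rintro ⟨x, y⟩ h
        have h1 : (x : AlgebraicClosure F) + y * r a = 0 := congrArg Subtype.val h
        by_cases hy : (y : AlgebraicClosure F) = 0
        · rw [hy, zero_mul, add_zero] at h1
          exact Prod.ext (Subtype.ext h1) (Subtype.ext hy)
        · exfalso
          apply hra
          have h2 : r a = -(x : AlgebraicClosure F) * (y : AlgebraicClosure F)⁻¹ := by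
            rw [eq_mul_inv_iff_mul_eq₀ hy]
            linear_combination h1
          rw [h2]
          exact IntermediateField.mul_mem _ (IntermediateField.neg_mem _ x.2) (IntermediateField.inv_mem _ y.2)
      have hsurj : Function.Surjective φ := by
        rintro ⟨s, hs⟩
        obtain ⟨x, hx, y, hy, rfl⟩ := (mem_insert_iff r hr T a s).1 hs
        exact ⟨(⟨x, hx⟩, ⟨y, hy⟩), rfl⟩
      have hpos : 0 < Module.finrank F (KT (F := F) r T) := by rw [ih1]; positivity
      have : Module.Finite F (KT (F := F) r T) := Module.finite_of_finrank_pos hpos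
      rw [← (LinearEquiv.ofBijective φ ⟨hinj, hsurj⟩).finrank_eq, Module.finrank_prod]
      ring
    · intro s hs c hc
      obtain ⟨x, hx, y, hy, rfl⟩ := (mem_insert_iff r hr T a s).1 hs
      have hsub : T ⊆ insert a T := Finset.subset_insert a T
      have hxy : x * y = 0 := by
        by_contra hne
        apply hra
        have h1 : r a = (algebraMap F _ c - x ^ 2 - y ^ 2 * algebraMap F _ (b a)) * (2 * (x * y))⁻¹ := by
          rw [eq_mul_inv_iff_mul_eq₀ (mul_ne_zero two_ne_zero hne), ← hc, ← hr a]
          ring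
        rw [h1]
        have h2 : (2 : AlgebraicClosure F) ∈ KT (F := F) r T := by
          have := IntermediateField.natCast_mem (KT (F := F) r T) 2
          exact_mod_cast this
        refine IntermediateField.mul_mem _ (IntermediateField.sub_mem _ (IntermediateField.sub_mem _
          (IntermediateField.algebraMap_mem _ _) (pow_mem hx 2))
          (IntermediateField.mul_mem _ (pow_mem hy 2) (IntermediateField.algebraMap_mem _ _)))
          (IntermediateField.inv_mem _ (IntermediateField.mul_mem _ h2 (IntermediateField.mul_mem _ hx hy)))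
      rcases mul_eq_zero.1 hxy with h0 | h0
      · rw [h0, zero_add, mul_pow, hr a] at hc
        obtain ⟨S, hS, t, ht⟩ := ih2 (y * algebraMap F _ (b a))
          (IntermediateField.mul_mem _ hy (IntermediateField.algebraMap_mem _ _)) (c * b a) (by
            rw [map_mul, ← hc]
            ring)
        refine ⟨insert a S, Finset.insert_subset_insert a hS, t / b a, ?_⟩
        rw [Finset.prod_insert (fun h => haT (hS h))]
        have hba := hb0 a
        field_simp
        rw [ht]
      · rw [h0, zero_mul, add_zero] at hc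
        obtain ⟨S, hS, t, ht⟩ := ih2 x hx c hc
        exact ⟨S, hS.trans hsub, t, ht⟩

/-- the whole field -/
noncomputable abbrev KU : IntermediateField F (AlgebraicClosure F) := KT (F := F) r Finset.univ

omit [CharZero F] in
theorem sign {E : Type} [Field E] [Algebra F E] {s : E} {c : F} (hs : s ^ 2 = algebraMap F E c)
    (σ : E →ₐ[F] E) : σ s = s ∨ σ s = -s := by
  apply sq_eq_sq_iff_eq_or_eq_neg.1
  rw [← map_pow, hs, AlgHom.commutes]

include hr in
omit [CharZero F] in
theorem normal : Normal F (KU (F := F) r) := by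
  rw [IntermediateField.normal_iff_forall_map_le]
  intro σ
  change IntermediateField.map σ (IntermediateField.adjoin F
    (r '' ((Finset.univ : Finset (Fin m)) : Set (Fin m)))) ≤ _
  rw [IntermediateField.adjoin_map, IntermediateField.adjoin_le_iff]
  rintro _ ⟨_, ⟨j, hj, rfl⟩, rfl⟩
  rcases sign (hr j) σ with h | h
  · show σ (r j) ∈ KU (F := F) r
    rw [h]
    exact mem_KT r (Finset.mem_univ j)
  · show σ (r j) ∈ KU (F := F) r
    rw [h]
    exact IntermediateField.neg_mem _ (mem_KT r (Finset.mem_univ j))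

include hr in
omit [CharZero F] in
theorem two (σ : KU (F := F) r ≃ₐ[F] KU (F := F) r) : σ * σ = 1 := by
  apply AlgEquiv.ext
  rintro ⟨x, hx⟩
  show σ (σ ⟨x, hx⟩) = ⟨x, hx⟩
  have hx' : x ∈ IntermediateField.adjoin F (r '' ((Finset.univ : Finset (Fin m)) : Set (Fin m))) := hx
  induction hx' using IntermediateField.adjoin_induction with
  | mem y hy =>
    obtain ⟨j, hj, rfl⟩ := hy
    have h1 : (⟨r j, hx⟩ : KU (F := F) r) ^ 2 = algebraMap F _ (b j) := Subtype.ext (hr j)
    rcases sign h1 (σ : KU (F := F) r →ₐ[F] KU (F := F) r) with h | h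
    · have h' : σ ⟨r j, hx⟩ = ⟨r j, hx⟩ := h
      rw [h', h']
    · have h' : σ ⟨r j, hx⟩ = -⟨r j, hx⟩ := h
      rw [h', map_neg, h', neg_neg]
  | algebraMap c =>
    have h1 : (⟨algebraMap F _ c, hx⟩ : KU (F := F) r) = algebraMap F (KU (F := F) r) c := rfl
    rw [h1, AlgEquiv.commutes, AlgEquiv.commutes]
  | add y z hy hz ihy ihz =>
    have h1 : (⟨y + z, hx⟩ : KU (F := F) r) = ⟨y, hy⟩ + ⟨z, hz⟩ := rfl
    rw [h1, map_add, map_add, ihy, ihz]
  | inv y hy ihy =>
    have h1 : (⟨y⁻¹, hx⟩ : KU (F := F) r) = ⟨y, hy⟩⁻¹ := rfl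
    rw [h1, map_inv₀, map_inv₀, ihy]
  | mul y z hy hz ihy ihz =>
    have h1 : (⟨y * z, hx⟩ : KU (F := F) r) = ⟨y, hy⟩ * ⟨z, hz⟩ := rfl
    rw [h1, map_mul, map_mul, ihy, ihz]

end gen

end Pool.Agent.Q121.ESB
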