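import Pool.Agent.Q161.ESB.Stm6
import Pool.Agent.Q121.ESB.EXT0

/-!
# Project ESB, job EXT: existence of `K` (helper121)
-/

set_option autoImplicit false

namespace Pool.Agent.Q121.ESB

open Pool.Agent.Q161.ESB Finset

theorem ext : S_EXT := by
  intro F _ _ m b hb
  have hex : ∀ j, ∃ z : AlgebraicClosure F, z ^ 2 = algebraMap F (AlgebraicClosure F) (b j) :=
    fun j => IsAlgClosed.exists_pow_nat_eq _ two_pos
  choose r hr using hex
  obtain ⟨hdeg, hall⟩ := main r hr hb.ne hb.ind Finset.univ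
  have hpos : 0 < Module.finrank F (KU (F := F) r) := by
    rw [hdeg]
    positivity
  have hfin : Module.Finite F (KU (F := F) r) := Module.finite_of_finrank_pos hpos
  have hN : NumberField (KU (F := F) r) := NumberField.of_module_finite F _
  have hnorm : Normal F (KU (F := F) r) := normal r hr
  refine ⟨KU (F := F) r, inferInstance, hN, inferInstance, ⟨?_, ?_, ?_⟩, ⟨hb, ?_, ?_⟩⟩
  · exact ⟨⟩
  · rw [hdeg, Finset.card_univ, Fintype.card_fin]
  · exact two r hr
  · intro j
    exact ⟨⟨r j, mem_KT r (Finset.mem_univ j)⟩, Subtype.ext (hr j)⟩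
  · rintro ⟨s, hs⟩ c - hc
    have hc' : s ^ 2 = algebraMap F (AlgebraicClosure F) c := congrArg Subtype.val hc
    obtain ⟨S, -, t, ht⟩ := hall s hs c hc'
    exact ⟨S, t, ht⟩

end Pool.Agent.Q121.ESB
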